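import Mathlib

/-!
# Longest shortest diamonds of non-surjective range-2 cellular automata

The conjecture `D(n) = n - 1` is false: there is a four-state non-surjective range-2
automaton without diamonds of length at most four, so `D(4) ≥ 5`, and a six-state one
without diamonds of length at most five, so `D(6) ≥ 6`.
-/

namespace Pool.Agent.Results.MP_b60c25_lc.FourStates

/-- The global map of the one-dimensional range-2 automaton with local rule `f`. -/
def glob {n : ℕ} (f : Fin n → Fin n → Fin n) (c : ℤ → Fin n) : ℤ → Fin n :=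
  fun p => f (c p) (c (p + 1))

/-- The automaton is non-surjective: its global map is not onto. -/
def NonSurj {n : ℕ} (f : Fin n → Fin n → Fin n) : Prop :=
  ¬ Function.Surjective (glob f)

/-- `f` has a diamond of length `l ≥ 1`: two different words of length `l + 2` with the same
first letter, the same last letter and the same image. -/
def HasDiamond {n : ℕ} (f : Fin n → Fin n → Fin n) (l : ℕ) : Prop :=
  1 ≤ l ∧ ∃ w w' : Fin (l + 2) → Fin n, w 0 = w' 0 ∧ w (Fin.last (l + 1)) = w' (Fin.last (l + 1)) ∧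
    (∀ i : Fin (l + 1), f (w i.castSucc) (w i.succ) = f (w' i.castSucc) (w' i.succ)) ∧ w ≠ w'

/-- The least length of a diamond of `f`. -/
noncomputable def delta {n : ℕ} (f : Fin n → Fin n → Fin n) : ℕ :=
  sInf {l | HasDiamond f l}

/-- The maximum of the least diamond lengths of non-surjective automata with `n` states. -/
noncomputable def D (n : ℕ) : ℕ :=
  sSup {l | ∃ f : Fin n → Fin n → Fin n, NonSurj f ∧ l = delta f}

/-- A potential on pairs of states bounds the diamond lengths from below. -/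
lemma le_of_pot {n : ℕ} (f : Fin n → Fin n → Fin n) (φ : Fin n → Fin n → ℕ) (B : ℕ)
    (h1 : ∀ p c d, c ≠ d → f p c = f p d → φ c d ≤ 1)
    (h2 : ∀ a b, a ≠ b → ∀ c d, c ≠ d → f a c = f b d → φ c d ≤ φ a b + 1)
    (h3 : ∀ a b, a ≠ b → ∀ s, f a s = f b s → B ≤ φ a b) {l : ℕ}
    (h : HasDiamond f l) : B ≤ l := by
  obtain ⟨hl, w, w', h0, hlast, hstep, hne⟩ := h
  set W : ℕ → Fin n := fun i => w ⟨min i (l + 1), by omega⟩ with hW
  set W' : ℕ → Fin n := fun i => w' ⟨min i (l + 1), by omega⟩ with hW'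
  have hW0 : W 0 = W' 0 := by simpa [hW, hW'] using h0
  have hWl : W (l + 1) = W' (l + 1) := by
    have : (⟨min (l + 1) (l + 1), by omega⟩ : Fin (l + 2)) = Fin.last (l + 1) := by
      ext; simp
    simp only [hW, hW', this]
    exact hlast
  have hS : ∀ i, i ≤ l → f (W i) (W (i + 1)) = f (W' i) (W' (i + 1)) := by
    intro i hi
    have := hstep ⟨i, by omega⟩
    have e1 : (⟨min i (l + 1), by omega⟩ : Fin (l + 2)) = (⟨i, by omega⟩ : Fin (l + 1)).castSucc := by
      ext; simp; omega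
    have e2 : (⟨min (i + 1) (l + 1), by omega⟩ : Fin (l + 2)) =
        (⟨i, by omega⟩ : Fin (l + 1)).succ := by
      ext; simp; omega
    simp only [hW, hW', e1, e2]
    exact this
  have hex : ∃ i, W i ≠ W' i := by
    by_contra hc
    push Not at hc
    apply hne
    funext i
    have := hc i.val
    have e : (⟨min i.val (l + 1), by omega⟩ : Fin (l + 2)) = i := by
      ext; simp; omega
    simpa only [hW, hW', e] using this
  classical
  set i0 := Nat.find hex with hi0
  have hi0s : W i0 ≠ W' i0 := Nat.find_spec hex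
  have hi0m : ∀ k, k < i0 → W k = W' k := fun k hk => by
    by_contra hc
    exact Nat.find_min hex hk hc
  have hi0pos : 1 ≤ i0 := by
    rcases Nat.eq_zero_or_pos i0 with h | h
    · rw [h] at hi0s; exact absurd hW0 hi0s
    · exact h
  have hi0l : i0 ≤ l := by
    by_contra hc
    have : W i0 = W (l + 1) := by simp only [hW]; congr 1; ext; simp; omega
    have h' : W' i0 = W' (l + 1) := by simp only [hW']; congr 1; ext; simp; omega
    apply hi0s
    rw [this, h', hWl]
  have hex2 : ∃ k, W (i0 + k) = W' (i0 + k) := ⟨l + 1 - i0, by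
    have : i0 + (l + 1 - i0) = l + 1 := by omega
    rw [this]; exact hWl⟩
  set k0 := Nat.find hex2 with hk0
  have hk0s : W (i0 + k0) = W' (i0 + k0) := Nat.find_spec hex2
  have hk0m : ∀ k, k < k0 → W (i0 + k) ≠ W' (i0 + k) := fun k hk => Nat.find_min hex2 hk
  have hk0pos : 1 ≤ k0 := by
    rcases Nat.eq_zero_or_pos k0 with h | h
    · rw [h] at hk0s; exact absurd hk0s hi0s
    · exact h
  have hk0l : i0 + k0 ≤ l + 1 := by
    have : k0 ≤ l + 1 - i0 := Nat.find_min' hex2 (by
      have : i0 + (l + 1 - i0) = l + 1 := by omega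
      rw [this]; exact hWl)
    omega
  have hpot : ∀ k, k < k0 → φ (W (i0 + k)) (W' (i0 + k)) ≤ k + 1 := by
    intro k
    induction k with
    | zero =>
      intro hk
      have hs := hS (i0 - 1) (by omega)
      have e : i0 - 1 + 1 = i0 := by omega
      rw [e, ← hi0m (i0 - 1) (by omega)] at hs
      simpa using h1 (W (i0 - 1)) (W i0) (W' i0) hi0s hs
    | succ k ih =>
      intro hk
      have hs := hS (i0 + k) (by omega)
      have := h2 _ _ (hk0m k (by omega)) (W (i0 + (k + 1))) (W' (i0 + (k + 1))) (hk0m _ hk) hs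
      have h' := ih (by omega)
      omega
  have hs := hS (i0 + (k0 - 1)) (by omega)
  have e : i0 + (k0 - 1) + 1 = i0 + k0 := by omega
  rw [e, ← hk0s] at hs
  have := h3 _ _ (hk0m (k0 - 1) (by omega)) _ hs
  have h' := hpot (k0 - 1) (by omega)
  omega

/-- The four-state rule. -/
def f4 : Fin 4 → Fin 4 → Fin 4 :=
  ![![0, 1, 2, 3], ![0, 1, 3, 1], ![2, 3, 1, 0], ![3, 2, 0, 2]]

/-- The potential for the four-state rule. -/
def pot4 : Fin 4 → Fin 4 → ℕ :=
  ![![0, 5, 2, 3], ![5, 0, 3, 1], ![2, 3, 0, 4], ![3, 1, 4, 0]]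

/-- The six-state rule. -/
def f6 : Fin 6 → Fin 6 → Fin 6 :=
  ![![1, 2, 0, 3, 4, 5], ![0, 1, 5, 2, 0, 4], ![3, 5, 1, 4, 3, 2], ![1, 3, 0, 2, 4, 5],
    ![4, 0, 2, 5, 1, 3], ![4, 0, 3, 5, 2, 1]]

/-- The potential for the six-state rule. -/
def pot6 : Fin 6 → Fin 6 → ℕ :=
  ![![0, 5, 5, 6, 1, 3], ![5, 0, 2, 6, 4, 4], ![5, 2, 0, 4, 6, 6], ![6, 6, 4, 0, 3, 2],
    ![1, 4, 6, 3, 0, 6], ![3, 4, 6, 2, 6, 0]]

lemma f4_nonSurj : NonSurj f4 := by
  intro hs
  obtain ⟨c, hc⟩ := hs (fun p => if p = 0 then 0 else if p = 1 then 1 else if p = 2 then 0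
    else if p = 3 then 1 else 2)
  have key : ∀ a b, f4 a b = 0 → ∀ c, f4 b c = 1 → ∀ d, f4 c d = 0 → ∀ e, f4 d e = 1 →
      ∀ g, f4 e g ≠ 2 := by decide
  have e0 := congrFun hc 0
  have e1 := congrFun hc 1
  have e2 := congrFun hc 2
  have e3 := congrFun hc 3
  have e4 := congrFun hc 4
  simp only [glob] at e0 e1 e2 e3 e4
  norm_num at e0 e1 e2 e3 e4
  exact key _ _ e0 _ e1 _ e2 _ e3 _ e4

lemma f6_nonSurj : NonSurj f6 := by
  intro hs
  obtain ⟨c, hc⟩ := hs (fun p => if p = 0 then 4 else if p = 1 then 5 else if p = 2 then 1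
    else if p = 3 then 3 else 0)
  have key : ∀ a b, f6 a b = 4 → ∀ c, f6 b c = 5 → ∀ d, f6 c d = 1 → ∀ e, f6 d e = 3 →
      ∀ g, f6 e g = 0 → ∀ h, f6 g h ≠ 0 := by decide
  have e0 := congrFun hc 0
  have e1 := congrFun hc 1
  have e2 := congrFun hc 2
  have e3 := congrFun hc 3
  have e4 := congrFun hc 4
  have e5 := congrFun hc 5
  simp only [glob] at e0 e1 e2 e3 e4 e5
  norm_num at e0 e1 e2 e3 e4 e5
  exact key _ _ e0 _ e1 _ e2 _ e3 _ e4 _ e5

lemma f4_bound {l : ℕ} (h : HasDiamond f4 l) : 5 ≤ l :=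
  le_of_pot f4 pot4 5 (by decide) (by decide) (by decide) h

lemma f6_bound {l : ℕ} (h : HasDiamond f6 l) : 6 ≤ l :=
  le_of_pot f6 pot6 6 (by decide) (by decide) (by decide) h

lemma f4_diamond : HasDiamond f4 5 :=
  ⟨by norm_num, ![1, 1, 2, 3, 3, 1, 0], ![1, 3, 0, 0, 2, 0, 0], by decide, by decide, by decide,
    by decide⟩

lemma f6_diamond : HasDiamond f6 6 :=
  ⟨by norm_num, ![1, 0, 3, 0, 1, 0, 1, 3], ![1, 4, 5, 5, 4, 1, 3, 3], by decide, by decide,
    by decide, by decide⟩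

lemma delta_eq {n : ℕ} {f : Fin n → Fin n → Fin n} {k : ℕ} (h : HasDiamond f k)
    (hb : ∀ l, HasDiamond f l → k ≤ l) : delta f = k := by
  have hne : {l | HasDiamond f l}.Nonempty := ⟨k, h⟩
  exact le_antisymm (Nat.sInf_le h) (hb _ (Nat.sInf_mem hne))

lemma le_D {n k : ℕ} {f : Fin n → Fin n → Fin n} (hf : NonSurj f) (hk : delta f = k) :
    k ≤ D n := by
  refine le_csSup ?_ ⟨f, hf, hk.symm⟩
  have : {l | ∃ f : Fin n → Fin n → Fin n, NonSurj f ∧ l = delta f} ⊆
      Set.range (fun f : Fin n → Fin n → Fin n => delta f) := by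
    rintro l ⟨f, -, rfl⟩
    exact ⟨f, rfl⟩
  exact ((Set.finite_range _).subset this).bddAbove

/-- **The conjecture `D(n) = n - 1` fails.** There is a four-state non-surjective range-2
automaton whose shortest diamond has length exactly `5`, hence `D(4) ≥ 5`, and a six-state one
whose shortest diamond has length exactly `6`, hence `D(6) ≥ 6`. -/
theorem result :
    (∃ f : Fin 4 → Fin 4 → Fin 4, NonSurj f ∧ HasDiamond f 5 ∧ (∀ l, l < 5 → ¬ HasDiamond f l) ∧
      delta f = 5) ∧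
    (∃ f : Fin 6 → Fin 6 → Fin 6, NonSurj f ∧ HasDiamond f 6 ∧ (∀ l, l < 6 → ¬ HasDiamond f l) ∧
      delta f = 6) ∧
    5 ≤ D 4 ∧ 6 ≤ D 6 ∧ ¬ ∀ n : ℕ, 2 ≤ n → D n = n - 1 := by
  have h4 : delta f4 = 5 := delta_eq f4_diamond (fun l h => f4_bound h)
  have h6 : delta f6 = 6 := delta_eq f6_diamond (fun l h => f6_bound h)
  refine ⟨⟨f4, f4_nonSurj, f4_diamond, fun l hl h => absurd (f4_bound h) (by omega), h4⟩,
    ⟨f6, f6_nonSurj, f6_diamond, fun l hl h => absurd (f6_bound h) (by omega), h6⟩,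
    le_D f4_nonSurj h4, le_D f6_nonSurj h6, ?_⟩
  intro h
  have h5 := le_D f4_nonSurj h4
  have := h 4 (by norm_num)
  omega

end Pool.Agent.Results.MP_b60c25_lc.FourStates
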